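import Pool.Agent.Y16.AF.StmB
import Pool.Agent.Y232.AF.K0

/-! The modes of momentum zero, limit. -/

open MeasureTheory Matrix Filter
open scoped Matrix.Norms.Frobenius Topology

namespace Pool.Agent.Y407.AF

open Pool.Agent.Y16.AF Pool.Agent.Y232.AF

noncomputable section

section entries

variable {L : ℕ}

/-- power sums -/
lemma pows (X : ℝ) (n : ℕ) : ∑ s ∈ Finset.range n, 4 * ((s : ℝ) + 1) ^ 3 * (X - ((s : ℝ) + 1)) =
    X * (n : ℝ) ^ 2 * ((n : ℝ) + 1) ^ 2 -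
      2 / 15 * n * ((n : ℝ) + 1) * (2 * n + 1) * (3 * (n : ℝ) ^ 2 + 3 * n - 1) := by
  induction n with
  | zero => simp
  | succ n ih =>
    rw [Finset.sum_range_succ, ih]
    push_cast
    ring

/-- the main term -/
lemma main_sum (hL : 2 ≤ L) : ∑ a : In L, gg L ((a.1 : ℕ) + 1) ((a.1 : ℕ) + 1) *
    (2 * ps L a ^ 2) = 1 / 5 - 1 / (3 * (L : ℝ) ^ 2) + 2 / (15 * (L : ℝ) ^ 4) := by
  have hL0 : (0 : ℝ) < L := by exact_mod_cast (by omega : 0 < L)
  rw [Fintype.sum_prod_type]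
  have h1 : ∀ s : Fin (L - 1), ∑ j : Fin 3, gg L (((s, j) : In L).1 + 1) (((s, j) : In L).1 + 1) *
      (2 * ps L (s, j) ^ 2) = 4 * (((s : ℕ) : ℝ) + 1) ^ 3 * ((L : ℝ) - (((s : ℕ) : ℝ) + 1)) /
        (L : ℝ) ^ 5 := by
    intro s
    simp only [Fin.sum_univ_three, ps, gg, min_self, max_self]
    simp only [if_true, show ¬ ((1 : Fin 3) = 0) from by decide,
      show ¬ ((2 : Fin 3) = 0) from by decide, if_false]
    push_cast
    field_simp
    ring
  rw [Finset.sum_congr rfl fun s _ => h1 s, ← Finset.sum_div,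
    Fin.sum_univ_eq_sum_range (fun s => 4 * ((s : ℝ) + 1) ^ 3 * ((L : ℝ) - ((s : ℝ) + 1))) (L - 1),
    pows, Nat.cast_sub (by omega : 1 ≤ L)]
  push_cast
  field_simp
  ring

lemma gg_zero (s : ℕ) : gg L s 0 = 0 := by
  simp [gg]

lemma gg_top {s : ℕ} (hs : s ≤ L) : gg L s L = 0 := by
  have h2 : max L s = L := by omega
  simp [gg, h2]

/-- the Green function is Lipschitz -/
lemma gg_lip (hL : 2 ≤ L) {s t : ℕ} (hs : s ≤ L) : |gg L s (t + 1) - gg L s t| ≤ 1 := by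
  have hL0 : (0 : ℝ) < L := by exact_mod_cast (by omega : 0 < L)
  have hs' : (s : ℝ) ≤ L := by exact_mod_cast hs
  have hs0 : (0 : ℝ) ≤ s := Nat.cast_nonneg s
  unfold gg
  rcases Nat.lt_or_ge t s with h | h
  · have e1 : min (t + 1) s = t + 1 := by omega
    have e2 : max (t + 1) s = s := by omega
    have e3 : min t s = t := by omega
    have e4 : max t s = s := by omega
    rw [e1, e2, e3, e4]
    have e : ((t + 1 : ℕ) : ℝ) * ((L : ℝ) - s) / L - (t : ℝ) * ((L : ℝ) - s) / L =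
        ((L : ℝ) - s) / L := by
      push_cast; ring
    rw [e, abs_of_nonneg (div_nonneg (by linarith) hL0.le), div_le_one hL0]
    linarith
  · have e1 : min (t + 1) s = s := by omega
    have e2 : max (t + 1) s = t + 1 := by omega
    have e3 : min t s = s := by omega
    have e4 : max t s = t := by omega
    rw [e1, e2, e3, e4]
    have e : (s : ℝ) * ((L : ℝ) - ((t + 1 : ℕ) : ℝ)) / L - (s : ℝ) * ((L : ℝ) - t) / L =
        -(s / L) := by
      push_cast; ring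
    rw [e, abs_neg, abs_of_nonneg (div_nonneg hs0 hL0.le), div_le_one hL0]
    exact hs'

lemma gg_lip2 (hL : 2 ≤ L) {s t : ℕ} (hs : s ≤ L) : |gg L s t - gg L s (t + 2)| ≤ 2 := by
  have h1 := gg_lip hL (t := t) hs
  have h2 := gg_lip hL (t := t + 1) hs
  rw [abs_le] at h1 h2 ⊢
  constructor <;> linarith [h1.1, h1.2, h2.1, h2.2]

lemma GG_K1 (hL : 2 ≤ L) (a b : In L) :
    ‖(GG L * Matrix.of (K1 L 0)) a b‖ ≤ 1 / (L : ℝ) ^ 2 := by
  have hL0 : (0 : ℝ) < L := by exact_mod_cast (by omega : 0 < L)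
  have ha := a.1.2
  have hK : ∀ c, K1 L 0 c b = (if up c b then Complex.I * (ph L b.2 : ℂ) else 0) +
      (if up b c then -(Complex.I * (ph L b.2 : ℂ)) else 0) := by
    intro c
    unfold K1
    have e1 : (if up c b then -(Complex.exp (-Complex.I * ((ph L c.2 * 0 : ℝ) : ℂ)) *
        (-Complex.I * (ph L c.2 : ℂ))) else 0) =
        (if up c b then Complex.I * (ph L b.2 : ℂ) else 0) := by
      split_ifs with h
      · rw [h.1]; simp
      · rfl
    have e2 : (if up b c then -(Complex.exp (Complex.I * ((ph L c.2 * 0 : ℝ) : ℂ)) *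
        (Complex.I * (ph L c.2 : ℂ))) else 0) =
        (if up b c then -(Complex.I * (ph L b.2 : ℂ)) else 0) := by
      split_ifs with h
      · rw [← h.1]; simp
      · rfl
    rw [e1, e2]
    simp
  obtain ⟨g, hg⟩ : ∃ g : ℕ → Fin 3 → ℂ, g = fun t j =>
    if a.2 = j then ((gg L t ((a.1 : ℕ) + 1) : ℝ) : ℂ) else 0 := ⟨_, rfl⟩
  have hG : ∀ c, GG L a c = g ((c.1 : ℕ) + 1) c.2 := by
    intro c
    rw [hg]
    rfl
  have hsym : ∀ s t : ℕ, gg L s t = gg L t s := by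
    intro s t
    unfold gg
    rw [min_comm, max_comm]
  rw [Matrix.mul_apply]
  simp only [Matrix.of_apply, hK, mul_add, mul_ite, mul_zero, Finset.sum_add_distrib]
  have h1 : ∑ c : In L, (if up c b then GG L a c * (Complex.I * (ph L b.2 : ℂ)) else 0) =
      g (b.1 : ℕ) b.2 * (Complex.I * (ph L b.2 : ℂ)) := by
    rw [← sum_dn g _ b, Finset.sum_mul]
    · refine Finset.sum_congr rfl fun c _ => ?_
      rw [hG]
      split_ifs <;> simp
    · intro j
      rw [hg]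
      simp [gg]
  have h2 : ∑ c : In L, (if up b c then GG L a c * -(Complex.I * (ph L b.2 : ℂ)) else 0) =
      -(g ((b.1 : ℕ) + 2) b.2 * (Complex.I * (ph L b.2 : ℂ))) := by
    rw [← sum_up g _ b, Finset.sum_mul, ← Finset.sum_neg_distrib]
    · refine Finset.sum_congr rfl fun c _ => ?_
      rw [hG]
      split_ifs <;> simp
    · intro j
      rw [hg]
      have h3 : gg L L ((a.1 : ℕ) + 1) = 0 := by rw [hsym]; exact gg_top (by omega)
      simp [h3]
  rw [h1, h2]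
  have h3 : g (b.1 : ℕ) b.2 * (Complex.I * (ph L b.2 : ℂ)) +
      -(g ((b.1 : ℕ) + 2) b.2 * (Complex.I * (ph L b.2 : ℂ))) =
      (g (b.1 : ℕ) b.2 - g ((b.1 : ℕ) + 2) b.2) * (Complex.I * (ph L b.2 : ℂ)) := by ring
  have h4 : ‖g (b.1 : ℕ) b.2 - g ((b.1 : ℕ) + 2) b.2‖ ≤ 2 := by
    rw [hg]
    by_cases hj : a.2 = b.2
    · simp only [hj, if_true]
      rw [← Complex.ofReal_sub, Complex.norm_real, Real.norm_eq_abs, hsym (b.1 : ℕ),
        hsym ((b.1 : ℕ) + 2)]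
      exact gg_lip2 hL (by omega)
    · simp [hj]
  have h5 : ‖(Complex.I * (ph L b.2 : ℂ))‖ ≤ 1 / (2 * (L : ℝ) ^ 2) := by
    rw [norm_mul, Complex.norm_I, one_mul, Complex.norm_real, Real.norm_eq_abs,
      abs_of_nonneg (ph_nonneg L b.2)]
    exact ph_le L hL b.2
  rw [h3, norm_mul]
  calc _ ≤ 2 * (1 / (2 * (L : ℝ) ^ 2)) := mul_le_mul h4 h5 (norm_nonneg _) (by norm_num)
    _ = 1 / (L : ℝ) ^ 2 := by field_simp

lemma card_In : ((Fintype.card (In L) : ℕ) : ℝ) ≤ 3 * L := by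
  rw [Fintype.card_prod, Fintype.card_fin, Fintype.card_fin]
  have : ((L - 1) * 3 : ℕ) ≤ 3 * L := by omega
  exact_mod_cast this

lemma tr_K1 (hL : 2 ≤ L) : ‖trace (GG L * Matrix.of (K1 L 0) * (GG L * Matrix.of (K1 L 0)))‖ ≤
    9 / (L : ℝ) ^ 2 := by
  have hL0 : (0 : ℝ) < L := by exact_mod_cast (by omega : 0 < L)
  have hc := card_In (L := L)
  have hc0 : (0 : ℝ) ≤ ((Fintype.card (In L) : ℕ) : ℝ) := Nat.cast_nonneg _
  unfold trace
  simp only [Matrix.diag_apply]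
  calc ‖∑ a, (GG L * Matrix.of (K1 L 0) * (GG L * Matrix.of (K1 L 0))) a a‖
      ≤ ∑ a, ∑ b, ‖(GG L * Matrix.of (K1 L 0)) a b * (GG L * Matrix.of (K1 L 0)) b a‖ := by
        refine (norm_sum_le _ _).trans (Finset.sum_le_sum fun a _ => ?_)
        rw [Matrix.mul_apply (M := GG L * Matrix.of (K1 L 0)) (N := GG L * Matrix.of (K1 L 0))]
        exact norm_sum_le _ _
    _ ≤ ∑ a : In L, ∑ b : In L, (1 / (L : ℝ) ^ 2) * (1 / (L : ℝ) ^ 2) := by
        refine Finset.sum_le_sum fun a _ => Finset.sum_le_sum fun b _ => ?_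
        rw [norm_mul]
        exact mul_le_mul (GG_K1 hL a b) (GG_K1 hL b a) (norm_nonneg _) (by positivity)
    _ = ((Fintype.card (In L) : ℕ) : ℝ) * ((Fintype.card (In L) : ℕ) : ℝ) *
        ((1 / (L : ℝ) ^ 2) * (1 / (L : ℝ) ^ 2)) := by
        rw [Finset.sum_const, Finset.sum_const, Finset.card_univ, nsmul_eq_mul, nsmul_eq_mul]
        ring
    _ ≤ (3 * L) * (3 * L) * ((1 / (L : ℝ) ^ 2) * (1 / (L : ℝ) ^ 2)) := by
        gcongr
    _ = 9 / (L : ℝ) ^ 2 := by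
        field_simp
        ring

/-- the part of the second derivative from the field strength -/
def K3 (L : ℕ) (a b : In L) : ℂ :=
  (if a = b then ((2 * (-ph L a.2 * ph L a.2) : ℝ) : ℂ) else 0)
  + (if up a b then ((ph L a.2 ^ 2 : ℝ) : ℂ) else 0)
  + (if up b a then ((ph L a.2 ^ 2 : ℝ) : ℂ) else 0)

/-- the main part -/
def K4 (L : ℕ) (a b : In L) : ℂ := if a = b then ((2 * ps L a ^ 2 : ℝ) : ℂ) else 0

lemma K2_eq : Matrix.of (K2 L) = Matrix.of (K4 L) + Matrix.of (K3 L) := by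
  ext a b
  simp only [Matrix.of_apply, Matrix.add_apply]
  unfold K2 K3 K4
  split_ifs <;> (push_cast; ring)

lemma K3_sum (hL : 2 ≤ L) : ∑ a : In L, ∑ b : In L, ‖K3 L a b‖ ≤ 3 / (L : ℝ) ^ 3 := by
  have hL0 : (0 : ℝ) < L := by exact_mod_cast (by omega : 0 < L)
  have h := sum_tri (L := L)
    (fun a => ((2 * (-ph L a.2 * ph L a.2) : ℝ) : ℂ))
    (fun a => ((ph L a.2 ^ 2 : ℝ) : ℂ)) (fun a => ((ph L a.2 ^ 2 : ℝ) : ℂ))
    (1 / (L : ℝ) ^ 4) (by positivity) (by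
      intro a
      have h1 := ph_nonneg L a.2
      have h2 := ph_le L hL a.2
      have h6 : ph L a.2 ^ 2 ≤ (1 / (2 * (L : ℝ) ^ 2)) ^ 2 := pow_le_pow_left₀ h1 h2 2
      have h8 : (1 / (2 * (L : ℝ) ^ 2)) ^ 2 = (1 / (L : ℝ) ^ 4) / 4 := by
        field_simp
        norm_num
      rw [h8] at h6
      simp only [Complex.norm_real, Real.norm_eq_abs, abs_of_nonneg (sq_nonneg (ph L a.2))]
      have h10 : |2 * (-ph L a.2 * ph L a.2)| ≤ 2 * ph L a.2 ^ 2 := by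
        rw [abs_le]
        constructor <;> nlinarith [sq_nonneg (ph L a.2)]
      linarith)
  refine (le_of_eq ?_).trans (h.trans (le_of_eq ?_))
  · rfl
  · field_simp

lemma tr_K4 (hL : 2 ≤ L) : trace (GG L * Matrix.of (K4 L)) =
    ((1 / 5 - 1 / (3 * (L : ℝ) ^ 2) + 2 / (15 * (L : ℝ) ^ 4) : ℝ) : ℂ) := by
  rw [← main_sum hL]
  unfold trace
  simp only [Matrix.diag_apply, Matrix.mul_apply, Matrix.of_apply, K4, mul_ite, mul_zero]
  rw [Complex.ofReal_sum]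
  refine Finset.sum_congr rfl fun a _ => ?_
  rw [Finset.sum_ite_eq']
  rw [if_pos (Finset.mem_univ a)]
  unfold GG
  simp only [Matrix.of_apply, if_true]
  push_cast
  ring

end entries

/-- the value with its error -/
lemma ld2_close (h3 : S_LD2) (L : ℕ) (hL : 2 ≤ L) :
    ‖ld2 (fun ε => det ((Matrix.of (hS (L := L) ε 1)).submatrix
      (Sum.inr : Fin (L - 1) × Fin 3 → AL L) (Sum.inr : Fin (L - 1) × Fin 3 → AL L))) -
      ((1 / 5 : ℝ) : ℂ)‖ ≤ 13 / (L : ℝ) ^ 2 := by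
  obtain ⟨-, -, h3⟩ := h3
  have hL0 : (0 : ℝ) < L := by exact_mod_cast (by omega : 0 < L)
  have hL1 : (1 : ℝ) ≤ L := by exact_mod_cast (by omega : 1 ≤ L)
  have hM : ∀ ε : ℝ, (Matrix.of (hS (L := L) ε 1)).submatrix
      (Sum.inr : Fin (L - 1) × Fin 3 → AL L) (Sum.inr : Fin (L - 1) × Fin 3 → AL L) =
      Matrix.of (KK L ε) := by
    intro ε
    ext a b
    simp only [Matrix.submatrix_apply, Matrix.of_apply]
    exact hS_eq ε a b
  simp only [hM]
  have hinv : (Matrix.of (KK L 0)) * GG L = 1 := KK_GG hL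
  have hdet : det (Matrix.of (KK L 0)) ≠ 0 := by
    intro h0
    have := congrArg det hinv
    rw [Matrix.det_mul, h0, zero_mul, Matrix.det_one] at this
    exact zero_ne_one this
  rw [h3 (fun x => Matrix.of (KK L x)) (fun x => Matrix.of (K1 L x)) (Matrix.of (K2 L))
    (fun x a b => KK_deriv x a b) (fun a b => K1_deriv a b) hdet,
    Matrix.inv_eq_right_inv hinv, K2_eq, Matrix.mul_add, Matrix.trace_add, tr_K4 hL]
  have t1 := tr1 (GG L) (Matrix.of (K3 L)) hL0.le (gg_le hL) (K3_sum hL)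
  have t2 := tr_K1 hL
  have e1 : (L : ℝ) * (3 / (L : ℝ) ^ 3) = 3 / (L : ℝ) ^ 2 := by field_simp
  rw [e1] at t1
  have e2 : ((1 / 5 - 1 / (3 * (L : ℝ) ^ 2) + 2 / (15 * (L : ℝ) ^ 4) : ℝ) : ℂ) +
      trace (GG L * Matrix.of (K3 L)) -
      trace (GG L * Matrix.of (K1 L 0) * (GG L * Matrix.of (K1 L 0))) - ((1 / 5 : ℝ) : ℂ) =
      ((- 1 / (3 * (L : ℝ) ^ 2) + 2 / (15 * (L : ℝ) ^ 4) : ℝ) : ℂ) +
      trace (GG L * Matrix.of (K3 L)) -
      trace (GG L * Matrix.of (K1 L 0) * (GG L * Matrix.of (K1 L 0))) := by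
    push_cast
    ring
  rw [e2]
  have e3 : ‖((- 1 / (3 * (L : ℝ) ^ 2) + 2 / (15 * (L : ℝ) ^ 4) : ℝ) : ℂ)‖ ≤ 1 / (L : ℝ) ^ 2 := by
    rw [Complex.norm_real, Real.norm_eq_abs, abs_le]
    have h5 : (0 : ℝ) < 1 / (L : ℝ) ^ 2 := by positivity
    have h6 : 2 / (15 * (L : ℝ) ^ 4) ≤ 1 / (L : ℝ) ^ 2 := by
      rw [div_le_div_iff₀ (by positivity) (by positivity)]
      nlinarith [pow_pos hL0 2, pow_pos hL0 4, one_le_pow₀ hL1 (n := 2)]
    have h7 : (0 : ℝ) ≤ 2 / (15 * (L : ℝ) ^ 4) := by positivity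
    have h8 : -1 / (3 * (L : ℝ) ^ 2) = -(1 / 3) * (1 / (L : ℝ) ^ 2) := by field_simp
    rw [h8]
    constructor <;> linarith
  refine (norm_sub_le _ _).trans ?_
  refine (add_le_add_left (norm_add_le _ _) _).trans ?_
  have e4 : 13 / (L : ℝ) ^ 2 = 1 / (L : ℝ) ^ 2 + 3 / (L : ℝ) ^ 2 + 9 / (L : ℝ) ^ 2 := by ring
  rw [e4]
  linarith

/-- The modes of momentum zero, limit. -/
theorem af_k0l : S_LD2 → S_K0L := by
  intro h3
  refine ⟨((1 / 5 : ℝ) : ℂ), ?_⟩
  rw [tendsto_iff_norm_sub_tendsto_zero]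
  refine squeeze_zero (fun _ => norm_nonneg _) (fun L => ld2_close h3 (L + 2) (by omega)) ?_
  have h1 : Tendsto (fun L : ℕ => ((L + 2 : ℕ) : ℝ)) atTop atTop :=
    tendsto_natCast_atTop_atTop.comp (tendsto_add_atTop_nat 2)
  have h2 : Tendsto (fun L : ℕ => ((L + 2 : ℕ) : ℝ) ^ 2) atTop atTop :=
    (tendsto_pow_atTop (by norm_num)).comp h1
  exact h2.const_div_atTop 13

end

end Pool.Agent.Y407.AF
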